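import Mathlib

namespace Pool.Agent.Results.MP_e482b1_nt.Fails

open Finset

def PP : Set ℤ := {x | ∃ p : ℕ, p.Prime ∧ x = p}

def TP : Set ℤ := {x | ∃ p : ℕ, p.Prime ∧ ((p - 2).Prime ∨ (p + 2).Prime) ∧ x = p}

def D (a : ℕ → ℤ) (k : ℕ) (x : ℤ) : ℤ := ∏ i ∈ range k, (x - a i)

def IsOrd (X : Set ℤ) (p n : ℕ) (a : ℕ → ℤ) : Prop :=
  ∀ k ≤ n, a k ∈ X ∧ ∀ x ∈ X, emultiplicity (p : ℤ) (D a k (a k)) ≤ emultiplicity (p : ℤ) (D a k x)

def nu (p n : ℕ) (a : ℕ → ℤ) : ℕ := p ^ padicValInt p (D a n (a n))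

noncomputable def fac (n : ℕ) (a : Nat.Primes → ℕ → ℤ) : ℕ := ∏ᶠ p : Nat.Primes, nu p n (a p)

lemma ex (X : Set ℤ) (hX : X.Nonempty) (p n : ℕ) : ∃ a, IsOrd X p n a := by
  have step : ∀ (a : ℕ → ℤ) (k : ℕ), ∃ y ∈ X, ∀ x ∈ X,
      emultiplicity (p : ℤ) (D a k y) ≤ emultiplicity (p : ℤ) (D a k x) := fun a k =>
    ⟨_, Function.argminOn_mem (fun x => emultiplicity (p : ℤ) (D a k x)) X hX,
      fun x hx => Function.argminOn_le (fun x => emultiplicity (p : ℤ) (D a k x)) X hx⟩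
  induction n with
  | zero =>
    obtain ⟨y, hy⟩ := hX
    exact ⟨fun _ => y, fun k hk => ⟨hy, fun x _ => by simp [Nat.le_zero.1 hk, D]⟩⟩
  | succ n ih =>
    obtain ⟨a, ha⟩ := ih
    obtain ⟨y, hy⟩ := step a (n + 1)
    have e : ∀ k ≤ n + 1, D (Function.update a (n + 1) y) k = D a k := fun k hk =>
      funext fun x => prod_congr rfl fun i hi => by
        rw [Function.update_of_ne (by have := mem_range.1 hi; omega)]
    refine ⟨Function.update a (n + 1) y, fun k hk => ?_⟩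
    rw [e k hk]
    rcases hk.lt_or_eq with h | rfl
    · rw [Function.update_of_ne h.ne]; exact ha k (by omega)
    · rw [Function.update_self]; exact hy

lemma avoid {κ : Type*} [DecidableEq κ] (f : ℤ → κ) (S : Finset ℤ) (hf : Set.InjOn f S)
    (a : ℕ → ℤ) (k : ℕ) (hk : k < S.card) : ∃ x ∈ S, ∀ i < k, f x ≠ f (a i) := by
  by_contra hc
  push Not at hc
  have h1 : S.image f ⊆ (range k).image fun i => f (a i) := fun y hy => by
    obtain ⟨x, hx, rfl⟩ := mem_image.1 hy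
    obtain ⟨i, hi, e⟩ := hc x hx
    exact mem_image.2 ⟨i, mem_range.2 hi, e.symm⟩
  have h2 := (card_le_card h1).trans card_image_le
  rw [card_image_of_injOn hf, card_range] at h2
  omega

lemma nz {X : Set ℤ} {p n : ℕ} {a : ℕ → ℤ} (hp : p.Prime) (h : IsOrd X p n a) (S : Finset ℤ)
    (hS : ↑S ⊆ X) (hn : n < S.card) : D a n (a n) ≠ 0 := by
  obtain ⟨x, hx, h1⟩ := avoid id S (Set.injOn_id _) a n hn
  intro h0
  have h2 := (h n le_rfl).2 x (hS hx)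
  rw [h0, emultiplicity_zero, top_le_iff, emultiplicity_eq_top] at h2
  exact h2 (Int.finiteMultiplicity_iff.2 ⟨by simpa using hp.ne_one,
    prod_ne_zero_iff.2 fun i hi => sub_ne_zero.2 (h1 i (mem_range.1 hi))⟩)

lemma nd {X : Set ℤ} {p n : ℕ} {a : ℕ → ℤ} (hp : p.Prime) (h : IsOrd X p n a) (S : Finset ℤ)
    (hS : ↑S ⊆ X) (hi : Set.InjOn (fun x : ℤ => x % p) S) (k : ℕ) (hk : k ≤ n) (hn : k < S.card) :
    ¬ (p : ℤ) ∣ D a k (a k) := by
  obtain ⟨x, hx, h1⟩ := avoid _ S hi a k hn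
  have h2 := (h k hk).2 x (hS hx)
  rw [emultiplicity_eq_zero.2 (show ¬ (p : ℤ) ∣ D a k x from fun hd => by
    obtain ⟨i, hi, e⟩ := (Prime.dvd_finsetProd_iff (Nat.prime_iff_prime_int.1 hp) _).1 hd
    exact h1 i (mem_range.1 hi) (Int.modEq_iff_dvd.2 e).symm)] at h2
  exact emultiplicity_eq_zero.1 (le_antisymm h2 bot_le)

def S0 : Finset ℕ := {3, 5, 7, 11, 13, 17, 19, 29, 31, 41, 43, 59, 61, 71, 73, 101, 103, 107, 109,
  137, 139, 149, 151}

def S1 : Finset ℕ := {3, 5, 7, 11, 13, 17, 19, 29, 31, 41, 43, 61, 71, 73, 101, 137, 139, 269,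
  311, 313, 619, 1091}

def S2 : Finset ℕ := {2, 3, 5, 7, 11, 13, 17, 19, 23, 29, 31, 37, 41, 43, 47, 61, 67, 73, 79, 101,
  127, 131, 137}

def c (S : Finset ℕ) : Finset ℤ := S.image Nat.cast

lemma m0 : ↑(c S0) ⊆ TP := fun x hx => by
  obtain ⟨p, hp, rfl⟩ := mem_image.1 hx
  have : ∀ p ∈ S0, p.Prime ∧ ((p - 2).Prime ∨ (p + 2).Prime) := by simp [S0]; norm_num
  exact ⟨p, (this p hp).1, (this p hp).2, rfl⟩

lemma m1 : ↑(c S1) ⊆ TP := fun x hx => by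
  obtain ⟨p, hp, rfl⟩ := mem_image.1 hx
  have : ∀ p ∈ S1, p.Prime ∧ ((p - 2).Prime ∨ (p + 2).Prime) := by simp [S1]; norm_num
  exact ⟨p, (this p hp).1, (this p hp).2, rfl⟩

lemma m2 : ↑(c S2) ⊆ PP := fun x hx => by
  obtain ⟨p, hp, rfl⟩ := mem_image.1 hx
  have : ∀ p ∈ S2, p.Prime := by simp [S2]; norm_num
  exact ⟨p, this p hp, rfl⟩

lemma one {p n : ℕ} {a : ℕ → ℤ} (h : ¬ (p : ℤ) ∣ D a n (a n)) : nu p n a = 1 := by
  rw [nu, padicValInt.eq_zero_of_not_dvd h, pow_zero]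

lemma fin {X : Set ℤ} (hX : TP ⊆ X) (a : Nat.Primes → ℕ → ℤ) (h : ∀ p : Nat.Primes, IsOrd X p 22 (a p)) :
    (Function.mulSupport fun p : Nat.Primes => nu p 22 (a p)).Finite := by
  refine ((Set.finite_le_nat 151).preimage Subtype.val_injective.injOn).subset fun p hp => ?_
  by_contra hc
  have h1 : 151 < (p : ℕ) := not_le.1 hc
  refine hp (one (nd p.2 (h p) (c S0) (m0.trans hX) (fun x hx y hy e => ?_) 22 le_rfl (by decide)))
  have h2 : ∀ x ∈ c S0, 0 ≤ x ∧ x ≤ 151 := by decide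
  have := h2 x hx
  have := h2 y hy
  simp only at e
  rwa [Int.emod_eq_of_lt (by omega) (by omega), Int.emod_eq_of_lt (by omega) (by omega)] at e

theorem result : (∀ p : Nat.Primes, (∃ a, IsOrd TP p 22 a) ∧ ∃ b, IsOrd PP p 22 b) ∧
    ∀ a b : Nat.Primes → ℕ → ℤ, (∀ p : Nat.Primes, IsOrd TP p 22 (a p)) →
      (∀ p : Nat.Primes, IsOrd PP p 22 (b p)) →
      (∀ p, D (a p) 22 (a p 22) ≠ 0 ∧ D (b p) 22 (b p 22) ≠ 0) ∧
      (Function.mulSupport fun p : Nat.Primes => nu p 22 (a p)).Finite ∧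
      (Function.mulSupport fun p : Nat.Primes => nu p 22 (b p)).Finite ∧
      fac 22 a ≠ 2 * 2 ^ padicValNat 2 22 * fac 22 b := by
  have hT : TP ⊆ PP := fun x ⟨p, h1, _, h2⟩ => ⟨p, h1, h2⟩
  have h3 : (3 : ℤ) ∈ TP := m0 (by decide)
  refine ⟨fun p => ⟨ex _ ⟨3, h3⟩ _ _, ex _ ⟨3, hT h3⟩ _ _⟩, fun a b ha hb => ⟨fun p =>
    ⟨nz p.2 (ha p) _ m0 (by decide), nz p.2 (hb p) _ (m0.trans hT) (by decide)⟩,
    fin le_rfl a ha, fin hT b hb, fun h => ?_⟩⟩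
  have hp : Nat.Prime 23 := by norm_num
  have : Fact (Nat.Prime 23) := ⟨hp⟩
  set q : Nat.Primes := ⟨23, hp⟩
  have h1 : (23 : ℤ) ∣ D (a q) 22 (a q 22) := by
    by_contra hc
    have h2 : ∀ k ≤ 22, ¬ (23 : ℤ) ∣ D (a q) k (a q k) := fun k hk => by
      rcases hk.lt_or_eq with h | rfl
      · exact nd hp (ha q) (c S1) m1 (by decide) k hk (by rwa [show (c S1).card = 22 by decide])
      · exact hc
    have h4 : ∀ i ∈ range 23, a q i % 23 ∈ Ico (1 : ℤ) 23 := fun i hi => by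
      obtain ⟨p, h5, h6, h7⟩ := (ha q i (Nat.lt_succ_iff.1 (mem_range.1 hi))).1
      have h8 : ¬ 23 ∣ p := fun hd => by
        obtain rfl := (Nat.prime_dvd_prime_iff_eq hp h5).1 hd
        norm_num at h6
      rw [mem_Ico]; omega
    obtain ⟨i, hi, j, hj, hij, e⟩ := exists_ne_map_eq_of_card_lt_of_maps_to (by simp) h4
    wlog hlt : i < j generalizing i j
    · exact this j hj i hi hij.symm e.symm (by omega)
    exact h2 j (Nat.lt_succ_iff.1 (mem_range.1 hj)) (Dvd.dvd.trans (by omega : (23 : ℤ) ∣ a q j - a q i)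
      (dvd_prod_of_mem _ (mem_range.2 hlt)))
  have h2 : 23 ∣ fac 22 a := by
    refine Dvd.dvd.trans ?_ (finprod_mem_dvd q (fin le_rfl a ha))
    refine dvd_pow_self _ fun h0 => ?_
    rw [padicValInt, padicValNat.eq_zero_iff] at h0
    have := nz hp (ha q) _ m0 (by decide)
    simp only [q] at *
    omega
  rw [h, hp.dvd_mul, hp.dvd_mul, fac, finprod_eq_prod _ (fin hT b hb),
    Prime.dvd_finsetProd_iff hp.prime] at h2
  rcases h2 with (h2 | h2) | ⟨p, -, h2⟩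
  · omega
  · have := hp.dvd_of_dvd_pow h2; omega
  · obtain rfl : q = p := Subtype.ext ((Nat.prime_dvd_prime_iff_eq hp p.2).1 (hp.dvd_of_dvd_pow h2))
    rw [one (nd hp (hb q) (c S2) m2 (by decide) 22 le_rfl (by decide))] at h2
    omega

end Pool.Agent.Results.MP_e482b1_nt.Fails
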